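import Pool.Agent.W659.SA.Defs

set_option autoImplicit false

namespace Pool.Agent.W52.SA.CH

theorem main : Pool.Agent.W659.SA.S_CH := by
  intro C₀ Y κ hκ
  set C₂ : ℝ := 8 * ((C₀ : ℝ) + 1) / κ with hC₂
  have hC₂pos : 0 < C₂ := by positivity
  refine ⟨C₂, hC₂pos, max 3 (max ⌈(2 * (C₀ : ℝ)) ^ C₀ * Real.exp (κ / 8)⌉₊ ⌈Real.exp (Y / C₂)⌉₊),
    le_max_left _ _, ?_⟩
  intro H hH
  have h3 : 3 ≤ H := (le_max_left _ _).trans hH
  have h1 : (2 * (C₀ : ℝ)) ^ C₀ * Real.exp (κ / 8) ≤ H :=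
    (Nat.le_ceil _).trans (by
      exact_mod_cast ((le_max_left _ _).trans (le_max_right _ _)).trans hH)
  have h2 : Real.exp (Y / C₂) ≤ H :=
    (Nat.le_ceil _).trans (by
      exact_mod_cast ((le_max_right _ _).trans (le_max_right _ _)).trans hH)
  have hHR : (3 : ℝ) ≤ H := by exact_mod_cast h3
  have hH0 : (0 : ℝ) < H := by linarith
  constructor
  · apply Nat.le_floor
    have h4 : (Y : ℝ) / C₂ ≤ Real.log H := by
      rw [Real.le_log_iff_exp_le hH0]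
      exact h2
    rw [div_le_iff₀ hC₂pos] at h4
    linarith
  · have h5 : C₂ * Real.log H - 1 < (⌊C₂ * Real.log H⌋₊ : ℝ) := Nat.sub_one_lt_floor _
    have h6 : Real.exp (((C₀ : ℝ) + 1) * Real.log H - κ / 8) <
        Real.exp (κ * (⌊C₂ * Real.log H⌋₊ : ℝ) / 8) := by
      apply Real.exp_lt_exp.2
      have e1 : ((C₀ : ℝ) + 1) * Real.log H - κ / 8 = κ / 8 * (C₂ * Real.log H - 1) := by
        rw [hC₂]
        field_simp
      rw [e1]
      have e2 : κ * (⌊C₂ * Real.log H⌋₊ : ℝ) / 8 = κ / 8 * (⌊C₂ * Real.log H⌋₊ : ℝ) := by ring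
      rw [e2]
      exact mul_lt_mul_of_pos_left h5 (by positivity)
    refine lt_of_le_of_lt ?_ h6
    have e3 : Real.exp (((C₀ : ℝ) + 1) * Real.log H - κ / 8) =
        (H : ℝ) ^ (C₀ + 1) * Real.exp (-(κ / 8)) := by
      rw [sub_eq_add_neg, Real.exp_add]
      congr 1
      have : ((C₀ : ℝ) + 1) * Real.log H = ((C₀ + 1 : ℕ) : ℝ) * Real.log H := by push_cast; ring
      rw [this, Real.exp_nat_mul, Real.exp_log hH0]
    rw [e3, Real.exp_neg, ← div_eq_mul_inv, le_div_iff₀ (Real.exp_pos _)]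
    calc ((C₀ : ℝ) * (H + 1)) ^ C₀ * Real.exp (κ / 8)
        ≤ ((2 * (C₀ : ℝ)) * H) ^ C₀ * Real.exp (κ / 8) := by
          apply mul_le_mul_of_nonneg_right _ (Real.exp_pos _).le
          apply pow_le_pow_left₀ (by positivity)
          have h0 : (0 : ℝ) ≤ C₀ := Nat.cast_nonneg _
          nlinarith
      _ = (2 * (C₀ : ℝ)) ^ C₀ * Real.exp (κ / 8) * (H : ℝ) ^ C₀ := by
          rw [mul_pow (2 * (C₀ : ℝ)) (H : ℝ)]
          ring
      _ ≤ H * (H : ℝ) ^ C₀ := mul_le_mul_of_nonneg_right h1 (by positivity)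
      _ = (H : ℝ) ^ (C₀ + 1) := by ring

end Pool.Agent.W52.SA.CH
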