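import Pool.Agent.W659.SA.Defs

set_option autoImplicit false

namespace Pool.Agent.W52.SA.PRL

open Filter Topology

theorem main : Pool.Agent.W659.SA.S_PRL := by
  intro κ hκ
  have hlo : Tendsto (fun y : ℕ => Real.log y / Real.sqrt y) atTop (𝓝 0) := by
    have h1 : Tendsto (fun x : ℝ => Real.log x / x ^ (1 / 2 : ℝ)) atTop (𝓝 0) :=
      (isLittleO_log_rpow_atTop (by norm_num : (0 : ℝ) < 1 / 2)).tendsto_div_nhds_zero
    have h2 := h1.comp tendsto_natCast_atTop_atTop
    refine h2.congr fun y => ?_
    simp only [Function.comp]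
    rw [Real.sqrt_eq_rpow]
  have hev := (hlo.eventually (gt_mem_nhds (by positivity : (0 : ℝ) < κ / 2))).and
    (eventually_ge_atTop 2)
  obtain ⟨Y, hY⟩ := eventually_atTop.1 hev
  refine ⟨Y, fun y hy T hT hcard => ?_⟩
  obtain ⟨h1, hy2⟩ := hY y hy
  have hyR : (2 : ℝ) ≤ y := by exact_mod_cast hy2
  have hlog : 0 < Real.log y := Real.log_pos (by linarith)
  have hsq : 0 < Real.sqrt y := Real.sqrt_pos.2 (by linarith)
  rw [div_lt_iff₀ hsq] at h1
  -- the elements larger than the square root
  classical
  set T' := T.filter (fun p => y < p * p) with hT'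
  have hsmall : (T.filter (fun p => ¬ y < p * p)).card ≤ Nat.sqrt y := by
    have hsub : T.filter (fun p => ¬ y < p * p) ⊆ Finset.Icc 1 (Nat.sqrt y) := by
      intro p hp
      rw [Finset.mem_filter] at hp
      rw [Finset.mem_Icc]
      refine ⟨by have := (hT p hp.1).1; omega, ?_⟩
      rw [Nat.le_sqrt]
      omega
    have := Finset.card_le_card hsub
    simpa using this
  have hsum := Finset.card_filter_add_card_filter_not (s := T) (fun p => y < p * p)
  have hs1 : (Nat.sqrt y : ℝ) ≤ Real.sqrt y := by
    apply Real.le_sqrt_of_sq_le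
    have := Nat.sqrt_le' y
    exact_mod_cast this
  have hs2 : Real.sqrt y ≤ κ / 2 * (y / Real.log y) := by
    rw [mul_div_assoc', le_div_iff₀ hlog]
    have e : Real.sqrt y * Real.sqrt y = y := Real.mul_self_sqrt (by linarith)
    nlinarith
  have hc : κ / 2 * (y / Real.log y) ≤ (T'.card : ℝ) := by
    have h3 : (T.card : ℝ) ≤ (T'.card : ℝ) + (Nat.sqrt y : ℝ) := by
      have : T.card ≤ T'.card + Nat.sqrt y := by
        rw [hT']
        omega
      exact_mod_cast this
    have h4 : κ * ((y : ℝ) / Real.log y) = κ / 2 * (y / Real.log y) + κ / 2 * (y / Real.log y) := by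
      ring
    linarith
  have hlogs : κ * y / 8 ≤ ∑ p ∈ T, Real.log (p : ℝ) := by
    have h5 : ∑ p ∈ T', Real.log (p : ℝ) ≤ ∑ p ∈ T, Real.log (p : ℝ) := by
      apply Finset.sum_le_sum_of_subset_of_nonneg (Finset.filter_subset _ _)
      intro p hp _
      apply Real.log_nonneg
      have := (hT p hp).1
      exact_mod_cast (by omega : 1 ≤ p)
    have h6 : (T'.card : ℝ) * (Real.log y / 2) ≤ ∑ p ∈ T', Real.log (p : ℝ) := by
      rw [← nsmul_eq_mul]
      apply Finset.card_nsmul_le_sum
      intro p hp
      have hp1 := (Finset.mem_filter.1 hp).2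
      have hp2 := (hT p (Finset.mem_filter.1 hp).1).1
      have hpR : (2 : ℝ) ≤ p := by exact_mod_cast hp2
      have h7 : Real.log y ≤ Real.log ((p : ℝ) * p) := by
        apply Real.log_le_log (by linarith)
        exact_mod_cast hp1.le
      rw [Real.log_mul (by positivity) (by positivity)] at h7
      linarith
    have h8 : κ / 2 * (y / Real.log y) * (Real.log y / 2) ≤ (T'.card : ℝ) * (Real.log y / 2) :=
      mul_le_mul_of_nonneg_right hc (by positivity)
    have h9 : κ / 2 * (y / Real.log y) * (Real.log y / 2) = κ * y / 4 := by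
      field_simp
      ring
    have h10 : κ * y / 8 ≤ κ * y / 4 := by
      have : 0 ≤ κ * y := by positivity
      linarith
    linarith
  calc Real.exp (κ * y / 8) ≤ Real.exp (∑ p ∈ T, Real.log (p : ℝ)) := Real.exp_le_exp.2 hlogs
    _ = ∏ p ∈ T, (p : ℝ) := by
        rw [Real.exp_sum]
        refine Finset.prod_congr rfl fun p hp => ?_
        apply Real.exp_log
        have := (hT p hp).1
        exact_mod_cast (by omega : 0 < p)

end Pool.Agent.W52.SA.PRL
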