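import Pool.Agent.W659.SA.Defs
import Pool.Agent.H901R3.MS.P_SPKX

set_option autoImplicit false

namespace Pool.Agent.W52.SA.SP2

open NumberField Pool.Agent.H901R3.MS

theorem main : Pool.Agent.H901R3.MS.RO → Pool.Agent.W659.SA.S_ROM →
    (∀ (K : Type) [Field K] [NumberField K] (A B : Prop), (A → ¬ ∃ x : K, x ^ 2 = -1) →
      (B → ¬ ∃ x : K, x ^ 2 = -3) → ∃ κ : ℝ, 0 < κ ∧ ∃ Y : ℕ, ∀ y : ℕ, Y ≤ y →
        κ * (Nat.primeCounting y : ℝ) ≤ ((DegP K A B y).card : ℝ)) →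
    Pool.Agent.W659.SA.S_SP2 := by
  intro hRO hROM hDK K _ _ A B hA hB
  obtain ⟨κ, hκ, Y₁, hY₁⟩ := hDK K A B hA hB
  obtain ⟨C1, hC1, hR1⟩ := hRO
  obtain ⟨C2, hC2, hR2⟩ := hROM
  obtain ⟨C, hC⟩ : ∃ C : ℝ, C = C1 + C2 := ⟨_, rfl⟩
  have hC0 : 0 < C := by rw [hC]; positivity
  obtain ⟨η, hη⟩ : ∃ η : ℝ, η = min (1 / 4) (κ / (4 * C)) := ⟨_, rfl⟩
  have hη0 : 0 < η := by rw [hη]; positivity
  have hη1 : η ≤ 1 / 4 := by rw [hη]; exact min_le_left _ _
  have hη2 : C * η ≤ κ / 4 := by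
    have : η ≤ κ / (4 * C) := by rw [hη]; exact min_le_right _ _
    calc C * η ≤ C * (κ / (4 * C)) := by gcongr
      _ = κ / 4 := by field_simp
  obtain ⟨Y₂, hY₂⟩ := hR1 η hη0 hη1
  obtain ⟨Y₃, hY₃⟩ := hR2 η hη0 hη1
  refine ⟨1 - η, by linarith, by linarith, κ / 4, by positivity,
    max (max Y₁ Y₂) (max Y₃ 30), ?_⟩
  intro y hy
  have hy1 : Y₁ ≤ y := le_trans (le_trans (le_max_left _ _) (le_max_left _ _)) hy
  have hy2 : Y₂ ≤ y := le_trans (le_trans (le_max_right _ _) (le_max_left _ _)) hy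
  have hy3 : Y₃ ≤ y := le_trans (le_trans (le_max_left _ _) (le_max_right _ _)) hy
  have hy4 : 30 ≤ y := le_trans (le_trans (le_max_right _ _) (le_max_right _ _)) hy
  have h1 := hY₁ y hy1
  have h2 := hY₂ y hy2
  have h2' := hY₃ y hy3
  have h3 := W_SPKX.cheb y hy4
  have hyR : (30 : ℝ) ≤ y := by exact_mod_cast hy4
  have hlog : 0 < Real.log y := Real.log_pos (by linarith)
  have hq : 0 ≤ (y : ℝ) / Real.log y := by positivity
  have h4 : ((DegP K A B y).card : ℝ) - ((RoughP (1 - η) y).card : ℝ) -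
      ((Pool.Agent.W659.SA.RoughM (1 - η) y).card : ℝ) ≤
      (((DegP K A B y \ RoughP (1 - η) y) \ Pool.Agent.W659.SA.RoughM (1 - η) y).card : ℝ) := by
    have g1 := Finset.le_card_sdiff (RoughP (1 - η) y) (DegP K A B y)
    have g2 := Finset.le_card_sdiff (Pool.Agent.W659.SA.RoughM (1 - η) y)
      (DegP K A B y \ RoughP (1 - η) y)
    have h5 : (DegP K A B y).card ≤
        ((DegP K A B y \ RoughP (1 - η) y) \ Pool.Agent.W659.SA.RoughM (1 - η) y).card +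
        (RoughP (1 - η) y).card + (Pool.Agent.W659.SA.RoughM (1 - η) y).card := by omega
    have h6 : ((DegP K A B y).card : ℝ) ≤
        (((DegP K A B y \ RoughP (1 - η) y) \ Pool.Agent.W659.SA.RoughM (1 - η) y).card : ℝ) +
        ((RoughP (1 - η) y).card : ℝ) +
        ((Pool.Agent.W659.SA.RoughM (1 - η) y).card : ℝ) := by exact_mod_cast h5
    linarith
  have h5 : κ * (1 / 2 * ((y : ℝ) / Real.log y)) ≤ κ * (Nat.primeCounting y : ℝ) := by gcongr
  have h6 : C * η * (y / Real.log y) ≤ κ / 4 * (y / Real.log y) := by gcongr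
  have h7 : κ / 4 * ((y : ℝ) / Real.log y) =
      κ * (1 / 2 * ((y : ℝ) / Real.log y)) - κ / 4 * (y / Real.log y) := by ring
  have h8 : C * η * (y / Real.log y) = C1 * η * (y / Real.log y) + C2 * η * (y / Real.log y) := by
    rw [hC]; ring
  linarith

end Pool.Agent.W52.SA.SP2
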